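import Mathlib

open Set Metric

namespace Pool.Agent.Results.MP_48b6db_an.Ray

/-- `x` is a super Delta-point: `x` lies in the closed unit ball and, for every weakly open set `U`
containing `x`, the supremum of `‖x - y‖` over `y` in the unit ball and in `U` is `1 + ‖x‖`. -/
def SuperDelta (𝕜 : Type) {X : Type} [RCLike 𝕜] [NormedAddCommGroup X] [NormedSpace 𝕜 X]
    (x : X) : Prop :=
  ‖x‖ ≤ 1 ∧ ∀ U : Set (WeakSpace 𝕜 X), IsOpen U → toWeakSpace 𝕜 X x ∈ U →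
    IsLUB ((fun y => ‖x - y‖) '' {y | ‖y‖ ≤ 1 ∧ toWeakSpace 𝕜 X y ∈ U}) (1 + ‖x‖)

/-- If `x` is a super Delta-point of the unit sphere of a real or complex Banach space, then so is
`r x` for every `0 < r < 1`. -/
theorem result (𝕜 X : Type) [RCLike 𝕜] [NormedAddCommGroup X] [NormedSpace 𝕜 X] [CompleteSpace X]
    (x : X) (hx : ‖x‖ = 1) (h : SuperDelta 𝕜 x) (r : ℝ) (h0 : 0 < r) (h1 : r < 1) :
    SuperDelta 𝕜 ((r : 𝕜) • x) := by
  have nr : ‖(r : 𝕜) • x‖ = r := by rw [norm_smul, hx, RCLike.norm_ofReal, abs_of_pos h0, mul_one]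
  refine ⟨by linarith, fun U hU hxU => ⟨?_, fun b hb => ?_⟩⟩
  · rintro _ ⟨y, hy, rfl⟩
    exact (norm_sub_le _ _).trans (by linarith [hy.1])
  obtain ⟨l, hl⟩ : ∃ l : ℝ, l = (1 + r) / 2 := ⟨_, rfl⟩
  have l0 : 0 < l := by linarith
  let F : WeakSpace 𝕜 X → WeakSpace 𝕜 X := fun y =>
    (l : 𝕜) • y - ((1 - l : ℝ) : 𝕜) • toWeakSpace 𝕜 X x
  have hF : ∀ y, F (toWeakSpace 𝕜 X y) = toWeakSpace 𝕜 X ((l : 𝕜) • y - ((1 - l : ℝ) : 𝕜) • x) :=
    fun y => by simp only [F, map_sub, map_smul]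
  have e : (l : 𝕜) • x - ((1 - l : ℝ) : 𝕜) • x = (r : 𝕜) • x := by
    rw [← sub_smul, ← RCLike.ofReal_sub]; congr 2; linarith
  have : 1 + ‖x‖ ≤ b / l := (h.2 (F ⁻¹' U) (hU.preimage (by fun_prop)) (by rw [mem_preimage, hF, e]; exact hxU)).2
    (by
      rintro _ ⟨y, hy, rfl⟩
      rw [le_div_iff₀ l0]
      refine le_of_eq_of_le ?_ (hb ⟨(l : 𝕜) • y - ((1 - l : ℝ) : 𝕜) • x, ⟨?_, ?_⟩, rfl⟩)
      · show _ = ‖(r : 𝕜) • x - _‖
        have : ((1 - l : ℝ) : 𝕜) = (l : 𝕜) - r := by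
          rw [← RCLike.ofReal_sub]; congr 1; linarith
        rw [this, sub_smul, show (r : 𝕜) • x - ((l : 𝕜) • y - ((l : 𝕜) • x - (r : 𝕜) • x)) =
          (l : 𝕜) • (x - y) by rw [smul_sub]; abel, norm_smul, RCLike.norm_ofReal, abs_of_pos l0,
          mul_comm]
      · refine (norm_sub_le _ _).trans ?_
        rw [norm_smul, norm_smul, RCLike.norm_ofReal, RCLike.norm_ofReal, abs_of_pos l0,
          abs_of_pos (by linarith), hx]
        nlinarith [hy.1]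
      · rw [← hF]; exact hy.2)
  rw [le_div_iff₀ l0, hx] at this
  rw [nr]
  linarith

end Pool.Agent.Results.MP_48b6db_an.Ray
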